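import Pool.Agent.K3h25.ET2.Main

/-! # MP_d26ff6_al: most value groups have index greater than four, and many have index greater than
eight

Let `S = (G, -1, q)` be a finite quaternionic structure whose quaternions lie in a group of exponent
two in which `q` is additive, and let `V(a) = {b : q(a,b) = 0}`.

Theorem. If fewer than `5/8` of all `a` in `G` have `[G : V(a)] > 4`, or if fewer than `3/8` of all
`a` have `[G : V(a)] > 8`, then `S` is of elementary type. The same holds for the quaternionic
structure of a field of characteristic not two with finitely many square classes (this is a special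
case).

Outline. Let `A` be the family of all bilinear maps `F : G × G → F_2` such that `F(a,b) = 0` whenever
`q(a,b) = 0`. It describes `S`, it is linked, and it is complete: a linear map `F : G → Hom(G, F_2)`
which is at each `v` a value of a member of `A` is a member. If `S` is not of elementary type, then
after passing to a subfamily (killed by some vectors) there are a subspace `P` of dimension three and
a section `F` over `P` (a linear map which is at each `p` in `P` a value of a member of `A`) which is
not a member on `P`. Extend `F` to a section over a maximal subspace `W`; it is not everything by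
completeness. Extension lemma: if `V(g) + W = G` then `F` extends to `W + ⟨g⟩`. For the possible
values at `g` form affine spaces `c(w)`, `w` in `W`, any two of which meet (lines are local-global),
so that each `c(w)`, restricted to `W`, meets each affine hyperplane through the only candidate. So
`V(g) + W ≠ G` for all `g` outside `W`, and a similar argument shows that `W` has codimension at
least three. For each functional `l ≠ 0` on `P` one has `F = l ⊗ f_l` on `P` modulo `A`, the seven
functionals `f_l` are not zero and not constant on the lines of the Fano plane, and `V(g) ∩ P` is
orthogonal to all `l` with `f_l(g) = 1`. If these `l` span the dual of `P` and `g` is outside `W`,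
then `V(g)` has index at least `16`, and if there are two such `l`, the index is at least `8`. An
enumeration of the subspaces of `F_2^7` shows that the first happens for at least `1/2` and the
second for at least `3/4` of all `g`. -/

set_option autoImplicit false

namespace Pool.Agent.Results.MP_d26ff6_al.LargeIndicesDense

open Pool.Agent.H315R3.ETC Pool.Agent.TH188.ET

universe u v

/-- the value group `V(a) = {b : q(a,b) = 0}` -/
def V (S : QData) (hS : IsQuat S) (a : S.G) : Subgroup S.G where
  carrier := {b | S.q a b = S.zero}
  one_mem' := (D hS a).one_mem
  mul_mem' := (D hS a).mul_mem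
  inv_mem' := (D hS a).inv_mem

/-- the elements whose value groups have index greater than `n` -/
def E (S : QData) (hS : IsQuat S) (n : ℕ) : Set S.G := {a | n < (V S hS a).index}

/-- the group of squares of `F*` -/
def squares (F : Type u) [Field F] : Subgroup Fˣ := (powMonoidHom 2 : Fˣ →* Fˣ).range

/-- the group of the nonzero values of the norm form `x² - a y²` -/
def normGroup {F : Type u} [Field F] (a : Fˣ) : Subgroup Fˣ where
  carrier := {c | ∃ x y : F, (c : F) = x ^ 2 - a * y ^ 2}
  one_mem' := NormFrom.one a
  mul_mem' := NormFrom.mul
  inv_mem' := NormFrom.inv

/-- the square classes of the elements whose norm groups have index greater than `n` -/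
def fieldE (F : Type u) [Field F] (n : ℕ) : Set (Fˣ ⧸ squares F) :=
  {x | ∃ a : Fˣ, (a : Fˣ ⧸ squares F) = x ∧ n < (normGroup a).index}

theorem result :
    -- structures
    (∀ (S : QData) (hS : IsQuat S), Finite S.G →
      -- the quaternions lie in a group `B` of exponent two in which `q` is additive
      ∀ (B : Type v) [AddCommGroup B] (β : S.G → S.G → B), (∀ b : B, b + b = 0) →
      (∀ a b c, β a (b * c) = β a b + β a c) →
      (∀ a b c d, β a b = β c d ↔ S.q a b = S.q c d) →
      (8 * (E S hS 4).ncard < 5 * Nat.card S.G ∨ 8 * (E S hS 8).ncard < 3 * Nat.card S.G) →
      Elem S) ∧
    -- fields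
    (∀ (F : Type u) [Field F], (2 : F) ≠ 0 → Finite (Fˣ ⧸ squares F) →
      (8 * (fieldE F 4).ncard < 5 * Nat.card (Fˣ ⧸ squares F) ∨
        8 * (fieldE F 8).ncard < 3 * Nat.card (Fˣ ⧸ squares F)) →
      ∃ S : QData, Elem S ∧ IsStructureOf F S) := by
  refine ⟨fun S hS hfin B _ β hB hmul hiff h => ?_, fun F _ h2 hfin h => ?_⟩
  · exact Pool.Agent.K3h25.ET2.elem_of_few S hS hfin hB β hmul hiff h.symm
  · exact Pool.Agent.K3h25.ET2.field_of_few h2 hfin h.symm

end Pool.Agent.Results.MP_d26ff6_al.LargeIndicesDense
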