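import Pool.Agent.K3h83.ET.One

/-! # MP_d26ff6_al: value groups of order at most four, with one exception

Let `S = (G, -1, q)` be a finite quaternionic structure, `V(a) = {b : q(a,b) = 0}` and `c ∈ G`. If
`V(a)` has at most four elements for every `a ≠ 1, -1, c`, then `S` is of elementary type. Nothing
is assumed on `V(c)` and on `V(-1)`; e.g. `V(c)` may have index four, eight, ….

Outline. We may assume `|G| ≥ 32`, that there is no birigid element, `c ≠ 1, -1` and `|V(c)| ≥ 8`.
For `b ∈ G` and `v ∈ V(c)`, `x ∈ V(b)` the equalities `q(bc, v) = q(b, v) = q(xv, b)` and the linking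
axiom give an `e ∈ V(bc)` with `-bcex ∈ V(ve)`. If `b ∉ ±V(c)` is not rigid, `-c ∉ V(b)` and
`-1 ∉ V(b)` (or `-1 = 1`), then each `e` is possible for at most two `v` (for at most one or two
further ones in an exceptional case), and altogether `|V(c)| ≤ 7`, a contradiction. Hence
`G = ±V(c) ∪ ±V(-1) ∪ ±V(-c)`, where `V(-c)` has at most four elements; this is impossible unless
`V(c)` has index at most two, and this case is `SmallOrHalf`. -/

set_option autoImplicit false

namespace Pool.Agent.Results.MP_d26ff6_al.OneException

open Pool.Agent.H315R3.ETC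

theorem result (S : QData) (hS : IsQuat S) (hfin : Finite S.G) (c : S.G)
    -- every value group `V(a)`, `a ≠ 1, -1, c`, has at most four elements
    (hyp : ∀ a : S.G, a ≠ 1 → a ≠ S.neg → a ≠ c → {b : S.G | S.q a b = S.zero}.ncard ≤ 4) :
    Elem S :=
  Pool.Agent.K3h83.ET.elem_one _ S hS hfin le_rfl c hyp

end Pool.Agent.Results.MP_d26ff6_al.OneException
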