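import Pool.Agent.K3h83.ET.Half

/-! # MP_d26ff6_al: value groups of order at most four or index at most two

Let `S = (G, -1, q)` be a finite quaternionic structure and `V(a) = {b : q(a,b) = 0}`. If for every
`a ≠ 1, -1` the value group `V(a)` has at most four elements or index at most two in `G`, then `S`
is of elementary type. (Nothing is assumed on `V(-1)`.)

Outline. If `V(c)` has index two for some `c ≠ 1, -1`, then every `b ∈ V(c)` has the value group
`{1,-b,c,-bc}`, and for `b` outside `V(c)` the slots of `q(b,v)`, `v ∈ V(c)`, show that `b` is rigid
up to few exceptions; this gives the value group criterion of the starting library. Otherwise all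
`V(a)`, `a ≠ 1, -1`, have at most four elements. Let `t` be a quaternion which is not of the form
`q(a,a)`. If two different slots of `t` have value groups with a common element `≠ 1`, then
`t = q(x,y)` with `x, y ∈ W = V(-1)`, and all slots of `t` lie in `±W`; otherwise all slots of `t`
but one are rigid (friendship theorem, starting library). If there is no birigid element this shows
`G = V(u) V(-u)` for each `u ∉ ±W` which is not rigid, so that `|G| ≤ 16`, or `G = ±W`. -/

set_option autoImplicit false

namespace Pool.Agent.Results.MP_d26ff6_al.SmallOrHalf

open Pool.Agent.H315R3.ETC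

theorem result (S : QData) (hS : IsQuat S) (hfin : Finite S.G)
    -- every value group `V(a)`, `a ≠ 1, -1`, has at most four elements or index at most two
    (hyp : ∀ a : S.G, a ≠ 1 → a ≠ S.neg →
      {b : S.G | S.q a b = S.zero}.ncard ≤ 4 ∨
      Nat.card S.G ≤ 2 * {b : S.G | S.q a b = S.zero}.ncard) :
    Elem S := by
  refine Pool.Agent.K3h83.ET.elem_half S hS hfin fun a h1 h2 => ?_
  rcases hyp a h1 h2 with h3 | h3
  · exact Or.inl h3
  · right
    have e1 : Nat.card (D hS a) = {b : S.G | S.q a b = S.zero}.ncard := rfl
    have e2 := (D hS a).card_mul_index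
    have e3 : 0 < Nat.card (D hS a) := Nat.card_pos
    have e4 : (D hS a).index ≤ 2 := by
      rw [← e1] at h3
      have : Nat.card (D hS a) * (D hS a).index ≤ Nat.card (D hS a) * 2 := by
        rw [e2, mul_comm _ 2]; exact h3
      exact Nat.le_of_mul_le_mul_left this e3
    have e5 : 0 < (D hS a).index := Nat.pos_of_ne_zero Subgroup.index_ne_zero_of_finite
    intro x y
    have hm : ∀ z : S.G, z ∈ D hS a ↔ S.q a z = S.zero := fun z => Iff.rfl
    rw [← hm, ← hm, ← hm]
    interval_cases hi : (D hS a).index
    · left
      rw [Subgroup.index_eq_one.1 hi]
      exact Subgroup.mem_top x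
    · by_cases hx : x ∈ D hS a
      · exact Or.inl hx
      · by_cases hy : y ∈ D hS a
        · exact Or.inr (Or.inl hy)
        · right; right
          rw [Subgroup.mul_mem_iff_of_index_two hi]
          exact iff_of_false hx hy

end Pool.Agent.Results.MP_d26ff6_al.SmallOrHalf
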