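import Pool.Agent.K3h50.ETT.Str

/-! # MP_d26ff6_al: structures with at most 27 quaternions near each three-generated subgroup

Let `S = (G, -1, q)` be a finite quaternionic structure whose quaternions lie in a group of exponent
two in which `q` is additive (for instance the structure of any field). Suppose that each
three-generated subgroup `W = ⟨x,y,z⟩` satisfies one of: at most 27 quaternions have a slot in `W`;
or less than `|G|/256` elements `a` have `V(a) ∩ W = 1` and `V(a)` of index greater than eight;
or at most four quaternions have slot `p`, for each of `p = x, y, z, xyz`. Then `S` is of elementary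
type. In particular this holds if `S` has at most 27 quaternions.

Outline. Characters of the group of quaternions give a linear family `A` of symmetric forms on `G`
(over `F_2`), which is linked; it suffices to show that linkage is inherited by the subfamilies
`{ω : ω(u) = 0}`, and this is linkage on the affine planes of the subgroups `W`. If it fails
on `W`, then there are nonzero functionals `f_l` on `G`, one for each nonzero functional `l` of `W`,
such that `A` has members with restriction `l ⊗ f_l + l' ⊗ f_{l'}` to `W`, for all `l, l'`, and
`t : W* → G` linear with `f_l(t(l)) = 1`. A finite check shows that the `w ⊗ t(m)` have at least 28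
different values. If `y ∈ G` is such that the `l` with `f_l(y) = 1` span the dual of `W`, then
`ω ↦ ω(y)|_W` is onto, so bijective on the values at `y`, if `V(y)` has index at most eight. Hence
`ω` kills `y` if `ω(W)` does. For `w ∈ W` this can be applied to `y` and to `y + w`, and gives
`ω(w) = 0`, for an `ω` with `ω(w) = f_l ≠ 0`. A finite check shows that suitable `y` and `w`
exist, with two exceptional types that need some more steps. -/

set_option autoImplicit false

namespace Pool.Agent.Results.MP_d26ff6_al.TwentySevenOrIndexEight

open Pool.Agent.H315R3.ETC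

universe v

/-- the quaternions with a slot in the subset `W` of `G` -/
def quats (S : QData) (W : Set S.G) : Set S.Q := {t | ∃ g ∈ W, ∃ b : S.G, S.q g b = t}

/-- the value group `V(a) = {b : q(a,b) = 0}`; its index is the number of quaternions `q(a,b)` -/
def V (S : QData) (a : S.G) : Set S.G := {b | S.q a b = S.zero}

/-- the smallness condition at `W = ⟨x,y,z⟩`: at most 27 quaternions with a slot in `W`; or less
than `|G|/256` elements `a` with more than eight quaternions `q(a,b)` and `V(a) ∩ W = 1`; or at
most four quaternions with slot `p`, for each of `p = x, y, z, xyz` -/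
def Small (S : QData) (x y z : S.G) : Prop :=
  (quats S (Subgroup.closure {x, y, z} : Subgroup S.G)).ncard ≤ 27 ∨
  256 * {a : S.G | 8 < (quats S {a}).ncard ∧
    ∀ w ∈ Subgroup.closure {x, y, z}, w ∈ V S a → w = 1}.ncard < Nat.card S.G ∨
  ∀ p : S.G, p = x ∨ p = y ∨ p = z ∨ p = x * y * z → (quats S {p}).ncard ≤ 4

theorem result (S : QData) (hS : IsQuat S) (hfin : Finite S.G)
    -- the quaternions lie in a group `B` of exponent two in which `q` is additive
    {B : Type v} [AddCommGroup B] (hB : ∀ b : B, b + b = 0) (β : S.G → S.G → B)
    (hmul : ∀ a b c, β a (b * c) = β a b + β a c)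
    (hq : ∀ a b c d, β a b = β c d ↔ S.q a b = S.q c d) :
    -- small three-generated subgroups
    ((∀ x y z : S.G, Small S x y z) → Elem S) ∧
    -- at most 27 quaternions
    ((quats S Set.univ).ncard ≤ 27 → Elem S) := by
  have main : (∀ x y z : S.G, Small S x y z) → Elem S := by
    intro h
    refine Pool.Agent.K3h50.ETT.elem_of_smS S hS hfin hB β hmul hq fun x y z => ?_
    rcases h x y z with h | h | h
    · exact Or.inl h
    · refine Or.inr (Or.inl ?_)
      have e : {a : S.G | 8 < (Pool.Agent.K3h50.ETT.qs S {a}).ncard ∧
          ∀ w ∈ Subgroup.closure {x, y, z}, S.q w a = S.zero → w = 1} =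
          {a : S.G | 8 < (quats S {a}).ncard ∧
            ∀ w ∈ Subgroup.closure {x, y, z}, w ∈ V S a → w = 1} := by
        ext a
        constructor
        · rintro ⟨h1, h2⟩
          exact ⟨h1, fun w hw hv => h2 w hw ((hS.qs2 w a).trans hv)⟩
        · rintro ⟨h1, h2⟩
          exact ⟨h1, fun w hw hv => h2 w hw ((hS.qs2 a w).trans hv)⟩
      rw [e]
      exact h
    · exact Or.inr (Or.inr h)
  refine ⟨main, fun h => main fun x y z => Or.inl (le_trans ?_ h)⟩
  have hfQ : (quats S Set.univ).Finite := by
    refine (Set.finite_range (fun p : S.G × S.G => S.q p.1 p.2)).subset ?_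
    rintro t ⟨g, -, b, rfl⟩
    exact ⟨(g, b), rfl⟩
  refine Set.ncard_le_ncard ?_ hfQ
  rintro t ⟨g, -, b, rfl⟩
  exact ⟨g, trivial, b, rfl⟩

end Pool.Agent.Results.MP_d26ff6_al.TwentySevenOrIndexEight
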